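import Pool.Agent.X20.Tr.LogA

/-!
# The logarithmically averaged Elliott conjecture along `⌊α n ^ c⌋`

From Mathlib: `dimH E`: the Hausdorff dimension of `E`; `⌊x⌋₊`: the integer part; `𝓝`: neighbourhoods.
-/

set_option autoImplicit false

namespace Pool.Agent.Results.MP_58cfe3_nt.AlongDilatedPowers

open Finset Filter Topology
open Pool.Agent.X20.Tr

/-- the extension of `g` by `0` to the integers `n ≤ 0` -/
noncomputable def ext (g : ℕ → ℂ) (n : ℤ) : ℂ := if 0 < n then g n.toNat else 0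

/-- the product of the `g_{j i}(n + h i)` -/
noncomputable def corr (g : ℕ → ℕ → ℂ) {k : ℕ} (j : Fin k → ℕ) (h : Fin k → ℤ) (n : ℤ) : ℂ :=
  ∏ i, ext (g (j i)) (n + h i)

/-- the logarithmic mean `(1 / log N) ∑ F n / n` over `n ≤ N` -/
noncomputable def logMean (F : ℕ → ℂ) (N : ℕ) : ℂ :=
  ((Real.log (N : ℝ) : ℝ) : ℂ)⁻¹ * ∑ n ∈ Icc 1 N, (n : ℂ)⁻¹ * F n

lemma corr_le {g : ℕ → ℕ → ℂ} (hg : ∀ j n, ‖g j n‖ ≤ 1) {k : ℕ} (j : Fin k → ℕ) (h : Fin k → ℤ) (n : ℤ) :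
    ‖corr g j h n‖ ≤ 1 := by
  unfold corr
  rw [norm_prod]
  apply prod_le_one (fun _ _ => norm_nonneg _)
  intro t _
  unfold ext
  split_ifs
  · exact hg _ _
  · simp

/-- For every real `c > 1` there is `0 < κ < 1` such that for every sequence `g 0, g 1, …` of functions with values in
the unit disc there is a set `E` of real numbers of Hausdorff dimension at most `1 - κ` such that for every real `α > 0`
outside `E`, all `k`, all `j 1, …, j k`, all integers `h 1, …, h k` and every complex `ρ`: the logarithmic mean of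
`∏ g_{j i}(n + h i)` tends to `ρ` if and only if that of `∏ g_{j i}(⌊α n ^ c⌋ + h i)` tends to `ρ`; and the logarithmic
means over `n ≤ N` of the latter and over `m ≤ ⌊α N ^ c⌋` of the former differ by `o(1)`. -/
theorem result (c : ℝ) (hc : 1 < c) : ∃ κ : ℝ, 0 < κ ∧ κ < 1 ∧ ∀ g : ℕ → ℕ → ℂ, (∀ j n, ‖g j n‖ ≤ 1) →
    ∃ E : Set ℝ, dimH E ≤ ENNReal.ofReal (1 - κ) ∧ ∀ α : ℝ, 0 < α → α ∉ E →
      ∀ (k : ℕ) (j : Fin k → ℕ) (h : Fin k → ℤ),
      (∀ ρ : ℂ, Tendsto (logMean fun n => corr g j h n) atTop (𝓝 ρ) ↔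
        Tendsto (logMean fun n => corr g j h ⌊α * (n : ℝ) ^ c⌋₊) atTop (𝓝 ρ)) ∧
      Tendsto (fun N : ℕ => logMean (fun n => corr g j h ⌊α * (n : ℝ) ^ c⌋₊) N -
        logMean (fun n => corr g j h n) ⌊α * (N : ℝ) ^ c⌋₊) atTop (𝓝 0) := by
  obtain ⟨κ, hκ0, hκ1, H⟩ := logSparse c hc
  refine ⟨κ, hκ0, hκ1, fun g hg => ?_⟩
  obtain ⟨E, hE, h⟩ := H (Σ k : ℕ, (Fin k → ℕ) × (Fin k → ℤ)) (fun i n => corr g i.2.1 i.2.2 n)
    (fun i n => corr_le hg _ _ _)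
  refine ⟨E, hE, fun α hα hαE k j s => ⟨fun ρ => ?_, ?_⟩⟩
  · exact lav_iff hc hα (P := fun n : ℕ => corr g j s n) (fun n => corr_le hg _ _ _) (h α hα hαE ⟨k, j, s⟩) ρ
  · exact lav_sub hc hα (P := fun n : ℕ => corr g j s n) (fun n => corr_le hg _ _ _) (h α hα hαE ⟨k, j, s⟩)

end Pool.Agent.Results.MP_58cfe3_nt.AlongDilatedPowers
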